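import Pool.Agent.Q120.SI.Stm

/-!
# Project SI of helper120, job DET: from the cells to the intervals
-/

set_option autoImplicit false

namespace Pool.Agent.Q252.SI

open Finset Filter Pool.Agent.Q120.ET Pool.Agent.Q120.GM Pool.Agent.Q120.GE Pool.Agent.Q120.RZ
  Pool.Agent.Q120.SI
open scoped Topology

open Classical in
/-- indicator function -/
noncomputable def w (S : Set ℕ) (n : ℕ) : ℝ := if n ∈ S then 1 else 0

theorem w_nonneg (S : Set ℕ) (n : ℕ) : 0 ≤ w S n := by
  unfold w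
  split_ifs <;> norm_num

theorem num_eq (S : Set ℕ) (I : Finset ℕ) : (num' S I : ℝ) = ∑ n ∈ I, w S n := by
  unfold num' w
  rw [← Finset.sum_filter, Finset.sum_const, nsmul_eq_mul, mul_one]

/-- the boundaries of the cells -/
def ed (i g j : ℕ) : ℕ := min (2 ^ i + j * g) (2 ^ (i + 1))

theorem ed_le (i g j : ℕ) : ed i g j ≤ ed i g (j + 1) := by
  unfold ed
  have h : j * g ≤ (j + 1) * g := Nat.mul_le_mul_right g (Nat.le_succ j)
  omega

theorem ed_mono (i g : ℕ) : Monotone (ed i g) := monotone_nat_of_le_succ (ed_le i g)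

theorem cell_eq (i g j : ℕ) : cell i g j = Ico (ed i g j) (ed i g (j + 1)) := by
  unfold cell ed
  ext n
  simp only [mem_Ico]
  omega

theorem pc_nonneg (n : ℕ) : 0 ≤ pc n := by
  unfold pc
  split_ifs with h
  · have : (1 : ℝ) ≤ n := by exact_mod_cast (by omega : 1 ≤ n)
    exact div_nonneg zero_le_one (Real.log_nonneg this)
  · exact le_refl 0

theorem pc_le {i n : ℕ} (hi : 2 ≤ i) (hn : 2 ^ i ≤ n) : pc n ≤ 2 / i := by
  have h4 : 2 ^ 2 ≤ 2 ^ i := Nat.pow_le_pow_right (by norm_num) hi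
  have h3 : 3 ≤ n := by omega
  unfold pc
  rw [if_pos h3]
  have hi0 : (0 : ℝ) < i := by exact_mod_cast (by omega : 0 < i)
  have h1 : (i : ℝ) / 2 ≤ Real.log n := by
    have h2 : Real.log ((2 : ℝ) ^ i) ≤ Real.log n := by
      apply Real.log_le_log (by positivity)
      exact_mod_cast hn
    rw [Real.log_pow] at h2
    have h5 := Real.log_two_gt_d9
    nlinarith
  rw [div_le_div_iff₀ (by linarith) hi0]
  linarith

/-- sums over consecutive cells -/
theorem cells_dev (f : ℕ → ℝ) (i g A : ℕ) (δ : ℝ) (n : ℕ)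
    (h : ∀ j, A ≤ j → j < A + n → |∑ m ∈ Ico (ed i g j) (ed i g (j + 1)), f m| ≤ δ) :
    |∑ m ∈ Ico (ed i g A) (ed i g (A + n)), f m| ≤ n * δ := by
  induction n with
  | zero => simp
  | succ n ih =>
    have h1 := ih fun j hj hj' => h j hj (by omega)
    have h2 := h (A + n) (by omega) (by omega)
    have h3 := Finset.sum_Ico_consecutive f (ed_mono i g (by omega : A ≤ A + n)) (ed_le i g (A + n))
    rw [← add_assoc, ← h3]
    refine (abs_add_le _ _).trans ?_
    push_cast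
    linarith

theorem sum_le_of {f : ℕ → ℝ} {P : ℝ} {a b g : ℕ} (hab : b ≤ a + g) (hP : 0 ≤ P)
    (h : ∀ m, a ≤ m → m < b → f m ≤ P) : ∑ m ∈ Ico a b, f m ≤ g * P := by
  have h1 : ∑ m ∈ Ico a b, f m ≤ ((Ico a b).card : ℝ) * P := by
    rw [← nsmul_eq_mul]
    exact Finset.sum_le_card_nsmul _ _ _ fun m hm => h m (mem_Ico.1 hm).1 (mem_Ico.1 hm).2
  refine h1.trans (mul_le_mul_of_nonneg_right ?_ hP)
  rw [Nat.card_Ico]
  exact_mod_cast (by omega : b - a ≤ g)

/-- the deviation in an interval of one block -/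
theorem one_block (S : Set ℕ) {i g a b : ℕ} {κ : ℝ} (hi : 2 ≤ i) (hg : 1 ≤ g) (hκ : 0 ≤ κ)
    (hκ1 : κ ≤ 1) (ha : 2 ^ i ≤ a) (hab : a ≤ b) (hb : b ≤ 2 ^ (i + 1))
    (h : ∀ j, (∃ n ∈ cell i g j, a ≤ n ∧ n < b) → ¬ Badc S i g κ j) :
    |∑ m ∈ Ico a b, (w S m - pc m)| ≤ (6 * g + κ * (b - a)) / i := by
  have hi0 : (0 : ℝ) < i := by exact_mod_cast (by omega : 0 < i)
  have hg0 : (0 : ℝ) ≤ g := Nat.cast_nonneg _
  have hba : (0 : ℝ) ≤ (b : ℝ) - a := by
    rw [sub_nonneg]
    exact_mod_cast hab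
  rcases Nat.eq_or_lt_of_le hab with rfl | hlt
  · rw [Ico_self, sum_empty, abs_zero]
    have : 0 ≤ κ * ((a : ℝ) - a) := by simp
    positivity
  set A := (a - 2 ^ i) / g with hA
  set B := (b - 1 - 2 ^ i) / g with hB
  have hA1 : A * g ≤ a - 2 ^ i := Nat.div_mul_le_self _ _
  have hA2 : a - 2 ^ i < (A + 1) * g := by
    have := Nat.lt_mul_div_succ (a - 2 ^ i) (by omega : 0 < g)
    rw [mul_comm] at this
    exact this
  have hB1 : B * g ≤ b - 1 - 2 ^ i := Nat.div_mul_le_self _ _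
  have hB2 : b - 1 - 2 ^ i < (B + 1) * g := by
    have := Nat.lt_mul_div_succ (b - 1 - 2 ^ i) (by omega : 0 < g)
    rw [mul_comm] at this
    exact this
  have hAB : A ≤ B := Nat.div_le_div_right (by omega)
  have hA3 : (A + 1) * g = A * g + g := by ring
  have hB3 : (B + 1) * g = B * g + g := by ring
  -- the cells A, ..., B meet the interval
  have hdev : ∀ j, A ≤ j → j ≤ B →
      |∑ m ∈ Ico (ed i g j) (ed i g (j + 1)), (w S m - pc m)| ≤ κ * g / i := by
    intro j hj hj'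
    have h1 : j * g ≤ B * g := Nat.mul_le_mul_right g hj'
    have h2 : (A + 1) * g ≤ (j + 1) * g := Nat.mul_le_mul_right g (by omega)
    have h3 : ¬ Badc S i g κ j := by
      apply h j
      have h4 : (j + 1) * g = j * g + g := by ring
      refine ⟨max a (2 ^ i + j * g), ?_, ?_, ?_⟩
      · rw [cell, mem_Ico]
        omega
      · omega
      · omega
    unfold Badc at h3
    rw [not_lt, num_eq, ← Finset.sum_sub_distrib, cell_eq] at h3
    exact h3
  have hP0 : (0 : ℝ) ≤ 2 / i := by positivity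
  have hpcP : ∀ m, 2 ^ i ≤ m → pc m ≤ 2 / i := fun m hm => pc_le hi hm
  have hwpc : ∀ u v : ℕ, ∑ m ∈ Ico u v, (w S m - pc m) =
      ∑ m ∈ Ico u v, w S m - ∑ m ∈ Ico u v, pc m := fun u v => Finset.sum_sub_distrib _ _
  have hw0 : ∀ u v : ℕ, 0 ≤ ∑ m ∈ Ico u v, w S m := fun u v =>
    Finset.sum_nonneg fun m _ => w_nonneg S m
  -- the numbers of the cells
  have hcard : ((B : ℝ) + 1 - A) * g ≤ (b - a) + 2 * g := by
    have h1 : B * g + a ≤ b + (A + 1) * g := by omega
    have h2 : ((B : ℝ) * g + a) ≤ b + (A + 1) * g := by exact_mod_cast h1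
    nlinarith
  have hdtot : ((B : ℝ) + 1 - A) * (κ * g / i) ≤ κ * ((b - a) + 2 * g) / i := by
    have h1 : ((B : ℝ) + 1 - A) * (κ * g / i) = κ * (((B : ℝ) + 1 - A) * g) / i := by ring
    rw [h1]
    exact div_le_div_of_nonneg_right (mul_le_mul_of_nonneg_left hcard hκ) hi0.le
  have hfin : 2 * (g * (2 / i)) + κ * ((b - a) + 2 * g) / i ≤ (6 * g + κ * (b - a)) / i := by
    have h1 : 2 * (g * (2 / i)) + κ * ((b - a) + 2 * g) / i =
      (4 * g + κ * (b - a) + 2 * (κ * g)) / (i : ℝ) := by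
      field_simp
      ring
    rw [h1]
    apply div_le_div_of_nonneg_right _ hi0.le
    nlinarith
  rw [abs_le]
  constructor
  · -- lower bound
    by_cases hc : A + 1 ≤ B
    · have e1 : a ≤ ed i g (A + 1) := by
        unfold ed
        omega
      have e2 : ed i g (A + 1) ≤ ed i g B := ed_mono i g hc
      have e3 : ed i g B = 2 ^ i + B * g := by
        unfold ed
        omega
      have e4 : ed i g B ≤ b := by omega
      have h1 := cells_dev (fun m => w S m - pc m) i g (A + 1) (κ * g / i) (B - (A + 1))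
        (fun j hj hj' => hdev j (by omega) (by omega))
      have h0 : A + 1 + (B - (A + 1)) = B := by omega
      rw [h0] at h1
      have h2 : ((B - (A + 1) : ℕ) : ℝ) * (κ * g / i) ≤ ((B : ℝ) + 1 - A) * (κ * g / i) := by
        apply mul_le_mul_of_nonneg_right _ (by positivity)
        rw [Nat.cast_sub hc]
        push_cast
        linarith
      have h3 := (abs_le.1 h1).1
      have h4 := Finset.sum_Ico_consecutive (fun m => w S m - pc m) e1 (e2.trans e4)
      have h5 := Finset.sum_Ico_consecutive (fun m => w S m - pc m) e2 e4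
      have h6 : -(g * (2 / i)) ≤ ∑ m ∈ Ico a (ed i g (A + 1)), (w S m - pc m) := by
        rw [hwpc]
        have h7 := hw0 a (ed i g (A + 1))
        have h8 : ∑ m ∈ Ico a (ed i g (A + 1)), pc m ≤ g * (2 / i) :=
          sum_le_of (by unfold ed; omega) hP0 fun m hm _ => hpcP m (by omega)
        linarith
      have h9 : -(g * (2 / i)) ≤ ∑ m ∈ Ico (ed i g B) b, (w S m - pc m) := by
        rw [hwpc]
        have h7 := hw0 (ed i g B) b
        have h8 : ∑ m ∈ Ico (ed i g B) b, pc m ≤ g * (2 / i) :=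
          sum_le_of (by rw [e3]; omega) hP0 fun m hm _ => hpcP m (by omega)
        linarith
      linarith
    · have hBA : B = A := by omega
      rw [hwpc]
      have h7 := hw0 a b
      have h8 : ∑ m ∈ Ico a b, pc m ≤ g * (2 / i) :=
        sum_le_of (by rw [hBA] at hB2; omega) hP0 fun m hm _ => hpcP m (by omega)
      have h9 : 0 ≤ κ * ((b - a) + 2 * g) / (i : ℝ) := by positivity
      have h10 : 0 ≤ (g : ℝ) * (2 / i) := by positivity
      linarith
  · -- upper bound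
    have e1 : ed i g A ≤ a := by
      unfold ed
      omega
    have e1' : ed i g A = 2 ^ i + A * g := by
      unfold ed
      omega
    have e2 : b ≤ ed i g (B + 1) := by
      unfold ed
      omega
    have h1 := cells_dev (fun m => w S m - pc m) i g A (κ * g / i) (B + 1 - A)
      (fun j hj hj' => hdev j (by omega) (by omega))
    have h0 : A + (B + 1 - A) = B + 1 := by omega
    rw [h0] at h1
    have h2 : ((B + 1 - A : ℕ) : ℝ) = (B : ℝ) + 1 - A := by
      rw [Nat.cast_sub (by omega)]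
      push_cast
      ring
    rw [h2] at h1
    have h3 := (abs_le.1 h1).2
    have h4 := Finset.sum_Ico_consecutive (fun m => w S m - pc m) e1 (hab.trans e2)
    have h5 := Finset.sum_Ico_consecutive (fun m => w S m - pc m) hab e2
    have h6 : -(g * (2 / i)) ≤ ∑ m ∈ Ico (ed i g A) a, (w S m - pc m) := by
      rw [hwpc]
      have h7 := hw0 (ed i g A) a
      have h8 : ∑ m ∈ Ico (ed i g A) a, pc m ≤ g * (2 / i) :=
        sum_le_of (by rw [e1']; omega) hP0 fun m hm _ => hpcP m (by omega)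
      linarith
    have h9 : -(g * (2 / i)) ≤ ∑ m ∈ Ico b (ed i g (B + 1)), (w S m - pc m) := by
      rw [hwpc]
      have h7 := hw0 b (ed i g (B + 1))
      have h8 : ∑ m ∈ Ico b (ed i g (B + 1)), pc m ≤ g * (2 / i) :=
        sum_le_of (by unfold ed; omega) hP0 fun m hm _ => hpcP m (by omega)
      linarith
    linarith

theorem mem_iv {x H : ℝ} (n : ℕ) : n ∈ iv x H ↔ x < n ∧ (n : ℝ) ≤ x + H := by
  unfold iv
  rw [mem_filter, mem_range]
  constructor
  · exact fun h => h.2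
  · intro h
    refine ⟨?_, h⟩
    have := Nat.le_floor h.2
    omega

theorem iv_eq {x H : ℝ} (hx : 0 ≤ x) (hH : 0 ≤ H) :
    iv x H = Ico (⌊x⌋₊ + 1) (⌊x + H⌋₊ + 1) := by
  ext n
  rw [mem_iv, mem_Ico, Nat.succ_le_iff, Nat.floor_lt hx, Nat.lt_succ_iff,
    Nat.le_floor_iff (by linarith)]

theorem t_DET : J_DET := by
  intro ε κ hε hε1 hκ hκ1
  refine ⟨κ / 200, by positivity, by linarith, ?_⟩
  have hev : ∀ᶠ k : ℕ in atTop, 200 / κ ≤ (2 : ℝ) ^ (ε * k) := by
    have h1 : Tendsto (fun k : ℕ => (2 : ℝ) ^ (ε * k)) atTop atTop := by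
      have h2 : Tendsto (fun k : ℕ => ((2 : ℝ) ^ ε) ^ k) atTop atTop :=
        tendsto_pow_atTop_atTop_of_one_lt (Real.one_lt_rpow (by norm_num) hε)
      refine h2.congr fun k => ?_
      rw [Real.rpow_mul (by norm_num), Real.rpow_natCast]
    exact h1.eventually_ge_atTop _
  have hev2 : ∀ᶠ k : ℕ in atTop, 4 / κ ≤ (k : ℝ) :=
    tendsto_natCast_atTop_atTop.eventually_ge_atTop _
  obtain ⟨K, hK⟩ := eventually_atTop.1 (hev.and (hev2.and (eventually_ge_atTop 2)))
  refine ⟨K, fun S k hk x H hx1 hx2 hH1 hH2 hcell => ?_⟩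
  obtain ⟨h1, h2, h3⟩ := hK k hk
  have hk0 : (0 : ℝ) < k := by exact_mod_cast (by omega : 0 < k)
  have hk1 : (1 : ℝ) ≤ k := by exact_mod_cast (by omega : 1 ≤ k)
  have h2k : (0 : ℝ) < (2 : ℝ) ^ k := by positivity
  have hx0 : 0 < x := lt_of_lt_of_le h2k hx1
  set y := (2 : ℝ) ^ (ε * k) with hy
  have hyH : y ≤ H := by
    refine le_trans ?_ hH1
    rw [hy, mul_comm, Real.rpow_mul (by norm_num), Real.rpow_natCast]
    exact Real.rpow_le_rpow h2k.le hx1 hε.le
  have hκy : 200 ≤ κ * y := by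
    rw [div_le_iff₀ hκ] at h1
    linarith
  have hκH : 200 ≤ κ * H := hκy.trans (mul_le_mul_of_nonneg_left hyH hκ.le)
  have hH200 : 200 ≤ H := by nlinarith
  have hH0 : 0 < H := by linarith
  have hκk : 4 ≤ κ * k := by
    rw [div_le_iff₀ hκ] at h2
    linarith
  -- the lengths of the cells
  have hg : (gl ε (κ / 200) k : ℝ) ≤ κ * H / 100 := by
    unfold gl
    have h4 := Nat.ceil_lt_add_one (a := κ / 200 * (2 : ℝ) ^ (ε * k)) (by positivity)
    rw [← hy] at h4
    have h5 : κ * y ≤ κ * H := mul_le_mul_of_nonneg_left hyH hκ.le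
    linarith
  have hg' : (gl ε (κ / 200) (k + 1) : ℝ) ≤ 3 * (κ * H) / 200 := by
    unfold gl
    have h4 := Nat.ceil_lt_add_one (a := κ / 200 * (2 : ℝ) ^ (ε * ((k + 1 : ℕ) : ℝ))) (by positivity)
    have h5 : (2 : ℝ) ^ (ε * ((k + 1 : ℕ) : ℝ)) ≤ 2 * y := by
      have h6 : ε * ((k + 1 : ℕ) : ℝ) = ε * k + ε := by
        push_cast
        ring
      rw [h6, Real.rpow_add (by norm_num), ← hy, mul_comm]
      have h7 : (2 : ℝ) ^ ε ≤ (2 : ℝ) ^ (1 : ℝ) :=
        Real.rpow_le_rpow_of_exponent_le (by norm_num) hε1.le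
      rw [Real.rpow_one] at h7
      exact mul_le_mul_of_nonneg_right h7 (by positivity)
    have h8 : κ / 200 * (2 : ℝ) ^ (ε * ((k + 1 : ℕ) : ℝ)) ≤ κ / 200 * (2 * y) :=
      mul_le_mul_of_nonneg_left h5 (by positivity)
    have h9 : κ * y ≤ κ * H := mul_le_mul_of_nonneg_left hyH hκ.le
    linarith
  have hg1 : ∀ i, 1 ≤ gl ε (κ / 200) i := by
    intro i
    unfold gl
    exact Nat.one_le_ceil_iff.2 (by positivity)
  -- the interval
  have hiv := iv_eq hx0.le hH0.le
  set a := ⌊x⌋₊ + 1 with ha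
  set b := ⌊x + H⌋₊ + 1 with hb
  have hfl : 2 ^ k ≤ ⌊x⌋₊ := Nat.le_floor (by exact_mod_cast hx1)
  have hfl2 : ⌊x⌋₊ < 2 ^ (k + 1) := (Nat.floor_lt hx0.le).2 (by exact_mod_cast hx2)
  have hfl3 : ⌊x + H⌋₊ < 2 ^ (k + 1 + 1) := (Nat.floor_lt (by linarith)).2 (by
    have h4 : x + H < 2 * (2 : ℝ) ^ (k + 1) := by linarith
    have h5 : ((2 ^ (k + 1 + 1) : ℕ) : ℝ) = 2 * (2 : ℝ) ^ (k + 1) := by
      push_cast
      ring
    rw [h5]
    exact h4)
  have hfl4 : ⌊x⌋₊ ≤ ⌊x + H⌋₊ := Nat.floor_le_floor (by linarith)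
  have hab : a ≤ b := by omega
  have hcm : ∀ n, a ≤ n → n < b → n ∈ iv x H := by
    intro n h4 h5
    rw [hiv]
    exact mem_Ico.2 ⟨h4, h5⟩
  have hbaU : (b : ℝ) - a ≤ H + 1 := by
    have h4 := Nat.floor_le (a := x + H) (by linarith)
    have h5 := Nat.lt_floor_add_one x
    rw [ha, hb]
    push_cast
    linarith
  have hbaL : H - 1 ≤ (b : ℝ) - a := by
    have h4 := Nat.lt_floor_add_one (x + H)
    have h5 := Nat.floor_le hx0.le
    rw [ha, hb]
    push_cast
    linarith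
  have hD : |∑ m ∈ Ico a b, (w S m - pc m)| ≤
      (6 * (gl ε (κ / 200) k) + 6 * (gl ε (κ / 200) (k + 1)) + κ / 200 * (b - a)) / k := by
    by_cases hbT : b ≤ 2 ^ (k + 1)
    · have h4 := one_block S (i := k) (g := gl ε (κ / 200) k) (a := a) (b := b) (κ := κ / 200) h3
        (hg1 k) (by positivity) (by linarith) (by omega) hab hbT (by
          rintro j ⟨n, hn, hn1, hn2⟩
          exact hcell k (Or.inl rfl) j ⟨n, hn, hcm n hn1 hn2⟩)
      refine h4.trans (div_le_div_of_nonneg_right ?_ hk0.le)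
      have h5 : (0 : ℝ) ≤ gl ε (κ / 200) (k + 1) := Nat.cast_nonneg _
      linarith
    · have h4 := one_block S (i := k) (g := gl ε (κ / 200) k) (a := a) (b := 2 ^ (k + 1))
        (κ := κ / 200) h3
        (hg1 k) (by positivity) (by linarith) (by omega) (by omega) (le_refl _) (by
          rintro j ⟨n, hn, hn1, hn2⟩
          exact hcell k (Or.inl rfl) j ⟨n, hn, hcm n hn1 (by omega)⟩)
      have h5 := one_block S (i := k + 1) (g := gl ε (κ / 200) (k + 1)) (a := 2 ^ (k + 1)) (b := b)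
        (κ := κ / 200) (by omega)
        (hg1 (k + 1)) (by positivity) (by linarith) (le_refl _) (by omega) (by omega) (by
          rintro j ⟨n, hn, hn1, hn2⟩
          exact hcell (k + 1) (Or.inr rfl) j ⟨n, hn, hcm n (by omega) hn2⟩)
      rw [← Finset.sum_Ico_consecutive (fun m => w S m - pc m) (by omega : a ≤ 2 ^ (k + 1))
        (by omega : 2 ^ (k + 1) ≤ b)]
      refine (abs_add_le _ _).trans ?_
      have h6 : (6 * (gl ε (κ / 200) (k + 1) : ℝ) + κ / 200 * (b - (2 ^ (k + 1) : ℕ))) /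
          ((k + 1 : ℕ) : ℝ) ≤
          (6 * (gl ε (κ / 200) (k + 1) : ℝ) + κ / 200 * (b - (2 ^ (k + 1) : ℕ))) / k := by
        apply div_le_div_of_nonneg_left _ hk0 (by push_cast; linarith)
        have h7 : (0 : ℝ) ≤ (b : ℝ) - (2 ^ (k + 1) : ℕ) := by
          rw [sub_nonneg]
          exact_mod_cast (by omega : 2 ^ (k + 1) ≤ b)
        positivity
      refine (add_le_add h4 (h5.trans h6)).trans (le_of_eq ?_)
      rw [← add_div]
      congr 1
      ring
  have hD2 : |∑ m ∈ Ico a b, (w S m - pc m)| ≤ 32 * (κ * H / 200) / k := by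
    refine hD.trans (div_le_div_of_nonneg_right ?_ hk0.le)
    have h4 : κ / 200 * ((b : ℝ) - a) ≤ κ / 200 * (2 * H) :=
      mul_le_mul_of_nonneg_left (by linarith) (by positivity)
    linarith
  -- the logarithms
  set L := Real.log x with hL
  have hlog2 := Real.log_two_gt_d9
  have hlog2' := Real.log_two_lt_d9
  have hL1 : k * Real.log 2 ≤ L := by
    rw [← Real.log_pow]
    exact Real.log_le_log h2k hx1
  have hL2 : L ≤ (k + 1) * Real.log 2 := by
    have h4 := Real.log_le_log hx0 hx2.le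
    rw [Real.log_pow] at h4
    push_cast at h4
    exact h4
  have hL0 : 0 < L := by nlinarith
  have hLk : L ≤ 1.4 * k := by nlinarith
  have hpcm : ∀ m ∈ Ico a b, 1 / (L + Real.log 2) ≤ pc m ∧ pc m ≤ 1 / L := by
    intro m hm
    have h4 := hiv ▸ hm
    rw [mem_iv] at h4
    obtain ⟨h5, h6⟩ := h4
    have h7 : 3 ≤ m := by
      have h8 := (mem_Ico.1 hm).1
      have h9 : 2 ^ 2 ≤ 2 ^ k := Nat.pow_le_pow_right (by norm_num) h3
      omega
    have hm0 : (0 : ℝ) < m := by linarith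
    unfold pc
    rw [if_pos h7]
    have h8 : L ≤ Real.log m := Real.log_le_log hx0 h5.le
    have h9 : Real.log m ≤ L + Real.log 2 := by
      rw [hL, ← Real.log_mul hx0.ne' (by norm_num)]
      exact Real.log_le_log hm0 (by linarith)
    exact ⟨one_div_le_one_div_of_le (by linarith) h9, one_div_le_one_div_of_le hL0 h8⟩
  have hcardI : (((Ico a b).card : ℕ) : ℝ) = (b : ℝ) - a := by
    rw [Nat.card_Ico, Nat.cast_sub hab]
  have hMU : (∑ m ∈ Ico a b, pc m) * L ≤ H + 1 := by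
    have h4 := Finset.sum_le_card_nsmul (Ico a b) pc (1 / L) fun m hm => (hpcm m hm).2
    rw [nsmul_eq_mul, hcardI] at h4
    have h5 : (∑ m ∈ Ico a b, pc m) * L ≤ (b - a) * (1 / L) * L :=
      mul_le_mul_of_nonneg_right h4 hL0.le
    rw [mul_assoc, one_div_mul_cancel hL0.ne', mul_one] at h5
    linarith
  have hML : H - 1 ≤ (∑ m ∈ Ico a b, pc m) * (L + Real.log 2) := by
    have h4 := Finset.card_nsmul_le_sum (Ico a b) pc (1 / (L + Real.log 2))
      fun m hm => (hpcm m hm).1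
    rw [nsmul_eq_mul, hcardI] at h4
    have h6 : 0 < L + Real.log 2 := by linarith
    have h5 : (b - a) * (1 / (L + Real.log 2)) * (L + Real.log 2) ≤
      (∑ m ∈ Ico a b, pc m) * (L + Real.log 2) := mul_le_mul_of_nonneg_right h4 h6.le
    rw [mul_assoc, one_div_mul_cancel h6.ne', mul_one] at h5
    linarith
  have hM0 : 0 ≤ ∑ m ∈ Ico a b, pc m := Finset.sum_nonneg fun m _ => pc_nonneg m
  have hM2 : (∑ m ∈ Ico a b, pc m) * Real.log 2 ≤ κ * H / 2 := by
    -- multiply by k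
    have h4 : (∑ m ∈ Ico a b, pc m) * (k * Real.log 2) ≤ 2 * H :=
      (mul_le_mul_of_nonneg_left hL1 hM0).trans (hMU.trans (by linarith))
    have h5 : 4 * ((∑ m ∈ Ico a b, pc m) * Real.log 2) ≤
        κ * k * ((∑ m ∈ Ico a b, pc m) * Real.log 2) :=
      mul_le_mul_of_nonneg_right hκk (by positivity)
    have h6 : κ * k * ((∑ m ∈ Ico a b, pc m) * Real.log 2) =
        κ * ((∑ m ∈ Ico a b, pc m) * (k * Real.log 2)) := by ring
    have h7 : κ * ((∑ m ∈ Ico a b, pc m) * (k * Real.log 2)) ≤ κ * (2 * H) :=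
      mul_le_mul_of_nonneg_left h4 hκ.le
    linarith
  have hDL : |∑ m ∈ Ico a b, (w S m - pc m)| * L ≤ κ * H / 4 := by
    have h4 : |∑ m ∈ Ico a b, (w S m - pc m)| * L ≤ 32 * (κ * H / 200) / k * (1.4 * k) :=
      mul_le_mul hD2 hLk hL0.le (by positivity)
    have h5 : 32 * (κ * H / 200) / k * (1.4 * k) = 32 * 1.4 / 200 * (κ * H) := by
      field_simp
    rw [h5] at h4
    have h6 : 0 ≤ κ * H := by positivity
    linarith
  have hcn : (cn S x H : ℝ) = ∑ m ∈ Ico a b, (w S m - pc m) + ∑ m ∈ Ico a b, pc m := by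
    unfold cn
    rw [num_eq, hiv, Finset.sum_sub_distrib]
    ring
  have hD3 := abs_le.1 (le_refl |∑ m ∈ Ico a b, (w S m - pc m)|)
  have hD4 : (∑ m ∈ Ico a b, (w S m - pc m)) * L ≤ κ * H / 4 :=
    (mul_le_mul_of_nonneg_right hD3.2 hL0.le).trans hDL
  have hD5 : -(κ * H / 4) ≤ (∑ m ∈ Ico a b, (w S m - pc m)) * L := by
    have h4 := mul_le_mul_of_nonneg_right hD3.1 hL0.le
    linarith
  rw [abs_le, hcn]
  constructor
  · rw [le_sub_iff_add_le, le_div_iff₀ hH0]
    have h4 : (∑ m ∈ Ico a b, (w S m - pc m) + ∑ m ∈ Ico a b, pc m) * L =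
      (∑ m ∈ Ico a b, (w S m - pc m)) * L + ((∑ m ∈ Ico a b, pc m) * (L + Real.log 2) -
        (∑ m ∈ Ico a b, pc m) * Real.log 2) := by ring
    rw [h4]
    linarith
  · rw [sub_le_iff_le_add, div_le_iff₀ hH0]
    have h4 : (∑ m ∈ Ico a b, (w S m - pc m) + ∑ m ∈ Ico a b, pc m) * L =
      (∑ m ∈ Ico a b, (w S m - pc m)) * L + (∑ m ∈ Ico a b, pc m) * L := by ring
    rw [h4]
    linarith

end Pool.Agent.Q252.SI
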