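import Pool.Agent.Q252.SI.ExiA

/-!
# The two rational structures of `XC T`
-/

set_option autoImplicit false
set_option linter.unusedSectionVars false

namespace Pool.Agent.Q252.SI

open NumberField IsDedekindDomain Pool.Agent.Q20.RS

section
variable {M : Type} [Field M] [NumberField M]

/-- the value at a place -/
noncomputable def fnL (T : Finset (HeightOneSpectrum (𝓞 M))) (w : Pl M) : XC T →ₗ[ℂ] ℂ where
  toFun x := x.fn w
  map_add' _ _ := rfl
  map_smul' _ _ := rfl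

theorem fn_sum {T : Finset (HeightOneSpectrum (𝓞 M))} {n : ℕ} (c : Fin n → ℂ) (b : Fin n → XC T)
    (w : Pl M) : (∑ i, c i • b i).fn w = ∑ i, c i * (b i).fn w := by
  change fnL T w (∑ i, c i • b i) = _
  rw [map_sum]
  refine Finset.sum_congr rfl fun i _ => ?_
  rw [map_smul]
  rfl

theorem fn_ext {T : Finset (HeightOneSpectrum (𝓞 M))} {x y : XC T} (h : ∀ w, x.fn w = y.fn w) :
    x = y := Subtype.ext (funext h)

/-- index set of the rational basis -/
abbrev Ix (T : Finset (HeightOneSpectrum (𝓞 M))) (v₀ : InfinitePlace M) : Type :=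
  T ⊕ {v : InfinitePlace M // v ≠ v₀}

open Classical in
/-- the function with given values outside `v₀` and sum zero -/
noncomputable def extF (T : Finset (HeightOneSpectrum (𝓞 M))) (v₀ : InfinitePlace M)
    (f : Ix T v₀ → ℂ) : Pl M → ℂ
  | .inl w => if h : w ∈ T then f (.inl ⟨w, h⟩) else 0
  | .inr v => if h : v ≠ v₀ then f (.inr ⟨v, h⟩) else -∑ i, f i

open Classical in
theorem sum_inf (v₀ : InfinitePlace M) (g : InfinitePlace M → ℂ) :
    ∑ v, g v = g v₀ + ∑ v : {v : InfinitePlace M // v ≠ v₀}, g v := by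
  rw [← Finset.add_sum_erase Finset.univ g (Finset.mem_univ v₀)]
  congr 1
  refine (Finset.sum_subtype (Finset.univ.erase v₀) (p := fun v => v ≠ v₀) ?_ g)
  intro x
  simp

theorem extF_mem (T : Finset (HeightOneSpectrum (𝓞 M))) (v₀ : InfinitePlace M)
    (f : Ix T v₀ → ℂ) : extF T v₀ f ∈ XS T := by
  classical
  refine ⟨fun w hw => ?_, ?_⟩
  · change (if h : w ∈ T then f (.inl ⟨w, h⟩) else 0) = 0
    rw [dif_neg hw]
  · have h1 : ∑ w ∈ T, extF T v₀ f (.inl w) = ∑ w : T, f (.inl w) := by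
      rw [← Finset.sum_coe_sort T]
      refine Finset.sum_congr rfl fun w _ => ?_
      change (if h : (w : HeightOneSpectrum (𝓞 M)) ∈ T then f (.inl ⟨w, h⟩) else 0) = _
      rw [dif_pos w.2]
    have h2 : ∑ v : InfinitePlace M, extF T v₀ f (.inr v) =
        -∑ i, f i + ∑ v : {v : InfinitePlace M // v ≠ v₀}, f (.inr v) := by
      rw [sum_inf v₀]
      congr 1
      · change (if h : v₀ ≠ v₀ then f (.inr ⟨v₀, h⟩) else -∑ i, f i) = _
        rw [dif_neg (not_not.2 rfl)]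
      · refine Finset.sum_congr rfl fun v _ => ?_
        change (if h : (v : InfinitePlace M) ≠ v₀ then f (.inr ⟨v, h⟩) else -∑ i, f i) = _
        rw [dif_pos v.2]
    rw [h1, h2, Fintype.sum_sum_type]
    ring

/-- the values outside `v₀` -/
noncomputable def crdL (T : Finset (HeightOneSpectrum (𝓞 M))) (v₀ : InfinitePlace M) :
    XC T →ₗ[ℂ] (Ix T v₀ → ℂ) :=
  LinearMap.pi fun i => Sum.elim (fun w : T => fnL T (.inl w))
    (fun v : {v : InfinitePlace M // v ≠ v₀} => fnL T (.inr v)) i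

theorem crdL_inl (T : Finset (HeightOneSpectrum (𝓞 M))) (v₀ : InfinitePlace M) (x : XC T) (w : T) :
    crdL T v₀ x (.inl w) = x.fn (.inl w) := rfl

theorem crdL_inr (T : Finset (HeightOneSpectrum (𝓞 M))) (v₀ : InfinitePlace M) (x : XC T)
    (v : {v : InfinitePlace M // v ≠ v₀}) : crdL T v₀ x (.inr v) = x.fn (.inr v) := rfl

open Classical in
theorem fn_v0 (T : Finset (HeightOneSpectrum (𝓞 M))) (v₀ : InfinitePlace M) (x : XC T) :
    x.fn (.inr v₀) = -∑ i, crdL T v₀ x i := by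
  classical
  have h := x.2.2
  rw [sum_inf v₀] at h
  have h1 : ∑ w ∈ T, x.1 (.inl w) = ∑ w : T, crdL T v₀ x (.inl w) := by
    rw [← Finset.sum_coe_sort T]
    rfl
  have h2 : ∑ i, crdL T v₀ x i = ∑ w : T, crdL T v₀ x (.inl w) +
      ∑ v : {v : InfinitePlace M // v ≠ v₀}, x.1 (.inr v) := by
    rw [Fintype.sum_sum_type]
    rfl
  rw [h2, ← h1]
  change x.1 (.inr v₀) = _
  linear_combination h

theorem crdL_bij (T : Finset (HeightOneSpectrum (𝓞 M))) (v₀ : InfinitePlace M) :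
    Function.Bijective (crdL T v₀) := by
  classical
  constructor
  · intro x y hxy
    apply fn_ext
    intro w
    rcases w with w | v
    · by_cases hw : w ∈ T
      · exact congrFun hxy (.inl ⟨w, hw⟩)
      · change x.1 (.inl w) = y.1 (.inl w)
        rw [x.2.1 w hw, y.2.1 w hw]
    · by_cases hv : v = v₀
      · rw [hv, fn_v0, fn_v0, hxy]
      · exact congrFun hxy (.inr ⟨v, hv⟩)
  · intro f
    refine ⟨⟨extF T v₀ f, extF_mem T v₀ f⟩, ?_⟩
    funext i
    rcases i with w | v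
    · change (if h : (w : HeightOneSpectrum (𝓞 M)) ∈ T then f (.inl ⟨w, h⟩) else 0) = _
      rw [dif_pos w.2]
    · change (if h : (v : InfinitePlace M) ≠ v₀ then f (.inr ⟨v, h⟩) else -∑ i, f i) = _
      rw [dif_pos v.2]

/-- the rational basis of the space `XC T` -/
theorem rat_basis (T : Finset (HeightOneSpectrum (𝓞 M))) {n : ℕ}
    (B' : Module.Basis (Fin n) ℂ (XC T)) : ∃ B : Module.Basis (Fin n) ℂ (XC T),
      ∀ x, (∃ q : Fin n → ℚ, x = ∑ i, (q i : ℂ) • B i) ↔ Rational x := by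
  classical
  obtain ⟨v₀⟩ : Nonempty (InfinitePlace M) := inferInstance
  let e₀ : XC T ≃ₗ[ℂ] (Ix T v₀ → ℂ) := LinearEquiv.ofBijective (crdL T v₀) (crdL_bij T v₀)
  let B₀ : Module.Basis (Ix T v₀) ℂ (XC T) := Module.Basis.ofEquivFun e₀
  have hc : Fintype.card (Ix T v₀) = n := by
    rw [← Module.finrank_eq_card_basis B₀, Module.finrank_eq_card_basis B', Fintype.card_fin]
  let e : Ix T v₀ ≃ Fin n := Fintype.equivFinOfCardEq hc
  let B : Module.Basis (Fin n) ℂ (XC T) := B₀.reindex e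
  have hrep : ∀ (x : XC T) (i : Ix T v₀), B.repr x (e i) = crdL T v₀ x i := by
    intro x i
    simp only [B, Module.Basis.repr_reindex_apply, Equiv.symm_apply_apply]
    rfl
  refine ⟨B, fun x => ⟨?_, ?_⟩⟩
  · rintro ⟨q, hq⟩
    have h1 : ∀ i, crdL T v₀ x i = (q (e i) : ℂ) := by
      intro i
      rw [← hrep, hq, B.repr_sum_self]
    intro w
    rcases w with w | v
    · by_cases hw : w ∈ T
      · exact ⟨_, h1 (.inl ⟨w, hw⟩)⟩
      · refine ⟨0, ?_⟩
        change x.1 (.inl w) = _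
        rw [x.2.1 w hw]
        simp
    · by_cases hv : v = v₀
      · refine ⟨-∑ i, q (e i), ?_⟩
        rw [hv, fn_v0]
        push_cast
        simp only [h1]
      · exact ⟨_, h1 (.inr ⟨v, hv⟩)⟩
  · intro hx
    choose r hr using hx
    refine ⟨fun i => Sum.elim (fun w : T => r (.inl w))
      (fun v : {v : InfinitePlace M // v ≠ v₀} => r (.inr v)) (e.symm i), ?_⟩
    apply B.repr.injective
    ext i
    rw [B.repr_sum_self]
    obtain ⟨j, rfl⟩ := e.surjective i
    rw [hrep]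
    simp only [Equiv.symm_apply_apply]
    rcases j with w | v
    · exact hr _
    · exact hr _

theorem common_den {n : ℕ} (q : Fin n → ℚ) : ∃ (m : ℕ) (a : Fin n → ℤ), 0 < m ∧
    ∀ i, (m : ℚ) * q i = a i := by
  classical
  refine ⟨∏ i, (q i).den, fun i => (q i).num * ∏ j ∈ Finset.univ.erase i, ((q j).den : ℤ),
    Finset.prod_pos fun i _ => (q i).den_pos, fun i => ?_⟩
  rw [← Finset.mul_prod_erase Finset.univ (fun i => (q i).den) (Finset.mem_univ i)]
  push_cast
  have h : ((q i).den : ℚ) * q i = (q i).num := by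
    rw [mul_comm]
    exact Rat.mul_den_eq_num (q i)
  calc ((q i).den : ℚ) * (∏ j ∈ Finset.univ.erase i, ((q j).den : ℚ)) * q i
      = (((q i).den : ℚ) * q i) * ∏ j ∈ Finset.univ.erase i, ((q j).den : ℚ) := by ring
    _ = _ := by rw [h]

theorem logUnit_iff {T : Finset (HeightOneSpectrum (𝓞 M))} {n : ℕ}
    (B : Module.Basis (Fin n) ℂ (XC T))
    (h1 : ∀ i, ∃ u : M, (u ≠ 0 ∧ ∀ w, w ∉ T → NumberField.HeightOneSpectrum.adicAbv M w u = 1) ∧
      ∀ w, (B i).fn w = ((-logv u w : ℝ) : ℂ))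
    (h2 : ∀ u : M, (u ≠ 0 ∧ ∀ w, w ∉ T → NumberField.HeightOneSpectrum.adicAbv M w u = 1) →
      ∃ q : Fin n → ℚ, ∀ w, ((-logv u w : ℝ) : ℂ) = ∑ i, (q i : ℂ) * (B i).fn w) (x : XC T) :
    (∃ q : Fin n → ℚ, x = ∑ i, (q i : ℂ) • B i) ↔ LogUnit x := by
  constructor
  · rintro ⟨q, hq⟩
    choose u hu hu' using h1
    obtain ⟨m, a, hm, ha⟩ := common_den q
    refine ⟨m, hm, ∏ i, u i ^ a i, ?_, ?_, ?_⟩
    · exact Finset.prod_ne_zero_iff.2 fun i _ => zpow_ne_zero _ (hu i).1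
    · intro w hw
      rw [map_prod]
      refine Finset.prod_eq_one fun i _ => ?_
      rw [map_zpow₀, (hu i).2 w hw, one_zpow]
    · intro w
      rw [logv_prod Finset.univ (fun i => u i ^ a i) (fun i => zpow_ne_zero _ (hu i).1) w, hq,
        fn_sum, Finset.mul_sum]
      push_cast
      rw [← Finset.sum_neg_distrib]
      refine Finset.sum_congr rfl fun i _ => ?_
      rw [hu', logv_zpow (hu i).1]
      have h3 : (m : ℂ) * (q i : ℂ) = (a i : ℂ) := by exact_mod_cast congrArg (fun t : ℚ => (t : ℂ)) (ha i)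
      push_cast
      rw [← mul_assoc, h3]
      ring
  · rintro ⟨m, hm, u, hu, hu1, hu2⟩
    obtain ⟨q, hq⟩ := h2 u ⟨hu, hu1⟩
    refine ⟨fun i => q i / m, ?_⟩
    apply fn_ext
    intro w
    have hm0 : (m : ℂ) ≠ 0 := Nat.cast_ne_zero.2 hm.ne'
    apply mul_left_cancel₀ hm0
    rw [hu2, hq, fn_sum, Finset.mul_sum]
    refine Finset.sum_congr rfl fun i _ => ?_
    push_cast
    field_simp

/-- existence of Stark maps from a rational basis of units -/
theorem stark_exists {F : Type} [Field F] [NumberField F] [Algebra F M]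
    {T : Finset (HeightOneSpectrum (𝓞 M))} (hT : Stable F T) {n : ℕ}
    (B : Module.Basis (Fin n) ℂ (XC T))
    (h1 : ∀ i, ∃ u : M, (u ≠ 0 ∧ ∀ w, w ∉ T → NumberField.HeightOneSpectrum.adicAbv M w u = 1) ∧
      ∀ w, (B i).fn w = ((-logv u w : ℝ) : ℂ))
    (h2 : ∀ u : M, (u ≠ 0 ∧ ∀ w, w ∉ T → NumberField.HeightOneSpectrum.adicAbv M w u = 1) →
      ∃ q : Fin n → ℚ, ∀ w, ((-logv u w : ℝ) : ℂ) = ∑ i, (q i : ℂ) * (B i).fn w) :
    Nonempty (StarkMap hT) := by
  classical
  obtain ⟨B₁, hB₁⟩ := rat_basis T B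
  have hB : ∀ x, (∃ q : Fin n → ℚ, x = ∑ i, (q i : ℂ) • B i) ↔ LogUnit x := logUnit_iff B h1 h2
  have hself : ∀ (b : Module.Basis (Fin n) ℂ (XC T)) (i : Fin n),
      ∃ q : Fin n → ℚ, b i = ∑ j, (q j : ℂ) • b j := by
    intro b i
    refine ⟨fun j => if j = i then 1 else 0, ?_⟩
    rw [Finset.sum_eq_single i]
    · simp
    · intro j _ hj
      simp [hj]
    · simp
  obtain ⟨θ, hθ1, hθ2⟩ := dno_mat (XRep hT) n B₁ B
    (fun g i => (hB₁ _).2 (rational_act hT g ((hB₁ _).1 (hself B₁ i))))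
    (fun g i => (hB _).2 (logUnit_act hT g ((hB _).1 (hself B i))))
  refine ⟨{ map := ⟨θ.toLinearMap, ?_⟩, bijective := ?_, rational := ?_ }⟩
  · intro g
    ext x : 1
    exact hθ1 g x
  · exact θ.bijective
  · intro x
    rw [← hB₁, hθ2, hB]
    rfl

end

end Pool.Agent.Q252.SI
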