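import Pool.Agent.Q20.SI.Stm
import Pool.Agent.Q252.SI.ExiB

/-!
# Project SI of helper20: jobs DNO and EXI
-/

set_option autoImplicit false

namespace Pool.Agent.Q252.SI

open Pool.Agent.Q20.SI Pool.Agent.Q20.RS

theorem dno : S_DNO := fun _ _ _ _ _ _ ρ n B B' h h' => dno_mat ρ n B B' h h'

/-- without `S_DNO` -/
theorem exi_of_tun : S_TUN → S_EXI := by
  intro h F M _ _ _ _ _ T hT
  obtain ⟨n, B, h1, h2⟩ := h M T
  exact stark_exists hT B h1 h2

theorem exi : S_TUN → S_DNO → S_EXI := fun h _ => exi_of_tun h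

end Pool.Agent.Q252.SI
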