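import Mathlib

/-!
# Two rational structures of a complex representation are isomorphic (Deuring, Noether)
-/

set_option autoImplicit false

namespace Pool.Agent.Q252.SI

open Matrix

/-- A polynomial matrix argument: a rational intertwiner which is invertible exists if a complex
one does. -/
theorem rat_point {G : Type} [Group G] [Fintype G] {n : ℕ}
    (R R' : G → Matrix (Fin n) (Fin n) ℚ) (P : Matrix (Fin n) (Fin n) ℂ)
    (hP : (∑ g, (R' g).map (algebraMap ℚ ℂ) * P * (R g⁻¹).map (algebraMap ℚ ℂ)).det ≠ 0) :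
    ∃ A : Matrix (Fin n) (Fin n) ℚ, (∑ g, R' g * A * R g⁻¹).det ≠ 0 := by
  classical
  by_contra hcon
  push Not at hcon
  let C : ℚ →+* MvPolynomial (Fin n × Fin n) ℚ := MvPolynomial.C
  let X : Matrix (Fin n) (Fin n) (MvPolynomial (Fin n × Fin n) ℚ) :=
    Matrix.mvPolynomialX (Fin n) (Fin n) ℚ
  let D : MvPolynomial (Fin n × Fin n) ℚ := (∑ g, (R' g).map C * X * (R g⁻¹).map C).det
  have hev : ∀ (K : Type) [Field K] [Algebra ℚ K] (A : Matrix (Fin n) (Fin n) K),
      MvPolynomial.aeval (fun p : Fin n × Fin n => A p.1 p.2) D =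
        (∑ g, (R' g).map (algebraMap ℚ K) * A * (R g⁻¹).map (algebraMap ℚ K)).det := by
    intro K _ _ A
    let φ : MvPolynomial (Fin n × Fin n) ℚ →+* K :=
      (MvPolynomial.aeval (fun p : Fin n × Fin n => A p.1 p.2) :
        MvPolynomial (Fin n × Fin n) ℚ →ₐ[ℚ] K)
    change φ D = _
    have h1 : φ D = (φ.mapMatrix (∑ g, (R' g).map C * X * (R g⁻¹).map C)).det :=
      RingHom.map_det φ _
    rw [h1, map_sum]
    congr 1
    refine Finset.sum_congr rfl fun g _ => ?_
    rw [map_mul, map_mul]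
    have hC : ∀ M : Matrix (Fin n) (Fin n) ℚ, φ.mapMatrix (M.map C) = M.map (algebraMap ℚ K) := by
      intro M
      ext i j
      simp only [RingHom.mapMatrix_apply, Matrix.map_apply]
      change MvPolynomial.aeval _ (MvPolynomial.C (M i j)) = _
      rw [MvPolynomial.aeval_C]
    have hX : φ.mapMatrix X = A := by
      ext i j
      simp only [RingHom.mapMatrix_apply, Matrix.map_apply, X, Matrix.mvPolynomialX_apply]
      change MvPolynomial.aeval _ (MvPolynomial.X (i, j)) = _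
      rw [MvPolynomial.aeval_X]
    rw [hC, hC, hX]
  have hD : D = 0 := by
    apply MvPolynomial.funext
    intro x
    have h1 := hev ℚ (Matrix.of fun i j => x (i, j))
    have h2 : (MvPolynomial.aeval (fun p : Fin n × Fin n => (Matrix.of fun i j => x (i, j)) p.1 p.2) D : ℚ)
        = MvPolynomial.eval x D := by
      have h5 := congrArg (fun f : MvPolynomial (Fin n × Fin n) ℚ →+* ℚ => f D)
        (MvPolynomial.coe_aeval_eq_eval x)
      exact h5
    rw [h2] at h1
    rw [h1, map_zero]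
    have h3 := hcon (Matrix.of fun i j => x (i, j))
    have h4 : ∀ M : Matrix (Fin n) (Fin n) ℚ, M.map (algebraMap ℚ ℚ) = M := by
      intro M
      ext i j
      rfl
    simp only [h4]
    exact h3
  apply hP
  rw [← hev ℂ P, hD, map_zero]

/-- **Deuring, Noether.** -/
theorem dno_mat {G V : Type} [Group G] [Finite G] [AddCommGroup V] [Module ℂ V]
    (ρ : Representation ℂ G V) (n : ℕ) (B B' : Module.Basis (Fin n) ℂ V)
    (hB : ∀ g i, ∃ q : Fin n → ℚ, ρ g (B i) = ∑ j, (q j : ℂ) • B j)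
    (hB' : ∀ g i, ∃ q : Fin n → ℚ, ρ g (B' i) = ∑ j, (q j : ℂ) • B' j) :
    ∃ θ : V ≃ₗ[ℂ] V, (∀ g x, θ (ρ g x) = ρ g (θ x)) ∧
      ∀ x, (∃ q : Fin n → ℚ, x = ∑ i, (q i : ℂ) • B i) ↔
        ∃ q : Fin n → ℚ, θ x = ∑ i, (q i : ℂ) • B' i := by
  classical
  have : Fintype G := Fintype.ofFinite G
  choose r hr using hB
  choose r' hr' using hB'
  let a : ℚ →+* ℂ := algebraMap ℚ ℂ
  let R : G → Matrix (Fin n) (Fin n) ℚ := fun g => Matrix.of fun j i => r g i j
  let R' : G → Matrix (Fin n) (Fin n) ℚ := fun g => Matrix.of fun j i => r' g i j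
  have key : ∀ (b : Module.Basis (Fin n) ℂ V) (q : Fin n → ℂ) (j : Fin n),
      b.repr (∑ i, q i • b i) j = q j := by
    intro b q j
    rw [b.repr_sum_self]
  have hR : ∀ g, LinearMap.toMatrix B B (ρ g) = (R g).map a := by
    intro g
    ext j i
    rw [LinearMap.toMatrix_apply, hr g i, key B (fun j => (r g i j : ℂ)) j]
    rfl
  have hR' : ∀ g, LinearMap.toMatrix B' B' (ρ g) = (R' g).map a := by
    intro g
    ext j i
    rw [LinearMap.toMatrix_apply, hr' g i, key B' (fun j => (r' g i j : ℂ)) j]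
    rfl
  have hmul : ∀ (b : Module.Basis (Fin n) ℂ V) (g h : G), LinearMap.toMatrix b b (ρ (g * h)) =
      LinearMap.toMatrix b b (ρ g) * LinearMap.toMatrix b b (ρ h) := by
    intro b g h
    rw [map_mul, LinearMap.toMatrix_mul]
  have hone : ∀ (b : Module.Basis (Fin n) ℂ V), LinearMap.toMatrix b b (ρ 1) = 1 := by
    intro b
    rw [map_one, LinearMap.toMatrix_one]
  let P : Matrix (Fin n) (Fin n) ℂ := LinearMap.toMatrix B B' LinearMap.id
  have hPr : ∀ g, P * LinearMap.toMatrix B B (ρ g) = LinearMap.toMatrix B' B' (ρ g) * P := by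
    intro g
    have h1 : LinearMap.toMatrix B B' (LinearMap.id ∘ₗ ρ g) = P * LinearMap.toMatrix B B (ρ g) :=
      LinearMap.toMatrix_comp B B B' _ _
    have h2 : LinearMap.toMatrix B B' (ρ g ∘ₗ LinearMap.id) = LinearMap.toMatrix B' B' (ρ g) * P :=
      LinearMap.toMatrix_comp B B' B' _ _
    rw [← h1, ← h2]
    rfl
  have hPdet : P.det ≠ 0 := by
    have h1 : LinearMap.toMatrix B' B (LinearMap.id : V →ₗ[ℂ] V) * P = 1 := by
      have h2 : LinearMap.toMatrix B B ((LinearMap.id : V →ₗ[ℂ] V) ∘ₗ LinearMap.id) =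
          LinearMap.toMatrix B' B (LinearMap.id : V →ₗ[ℂ] V) * P :=
        LinearMap.toMatrix_comp B B' B _ _
      rw [← h2]
      exact LinearMap.toMatrix_id B
    intro h0
    have h3 := congrArg Matrix.det h1
    rw [Matrix.det_mul, h0, mul_zero, Matrix.det_one] at h3
    exact zero_ne_one h3
  have hsum : ∑ g, (R' g).map a * P * (R g⁻¹).map a = (Fintype.card G : ℂ) • P := by
    have h1 : ∀ g : G, (R' g).map a * P * (R g⁻¹).map a = P := by
      intro g
      rw [← hR', ← hR, ← hPr, Matrix.mul_assoc, ← hmul, mul_inv_cancel, hone, Matrix.mul_one]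
    simp only [h1]
    rw [Finset.sum_const, Finset.card_univ, Nat.cast_smul_eq_nsmul]
  obtain ⟨A, hA⟩ := rat_point R R' P (by
    change (∑ g, (R' g).map a * P * (R g⁻¹).map a).det ≠ 0
    rw [hsum, Matrix.det_smul]
    refine mul_ne_zero (pow_ne_zero _ ?_) hPdet
    exact Nat.cast_ne_zero.2 Fintype.card_ne_zero)
  obtain ⟨Θ, hΘ⟩ : ∃ Θ, Θ = ∑ g, R' g * A * R g⁻¹ := ⟨_, rfl⟩
  rw [← hΘ] at hA
  have hΘc : Θ.map a = ∑ g, LinearMap.toMatrix B' B' (ρ g) * A.map a * LinearMap.toMatrix B B (ρ g⁻¹) := by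
    have h1 : a.mapMatrix Θ = ∑ g, LinearMap.toMatrix B' B' (ρ g) * A.map a *
        LinearMap.toMatrix B B (ρ g⁻¹) := by
      rw [hΘ, map_sum]
      refine Finset.sum_congr rfl fun g _ => ?_
      rw [map_mul, map_mul, hR, hR']
      rfl
    exact h1
  have hcomm : ∀ h, LinearMap.toMatrix B' B' (ρ h) * Θ.map a =
      Θ.map a * LinearMap.toMatrix B B (ρ h) := by
    intro h
    rw [hΘc, Finset.mul_sum, Finset.sum_mul]
    refine Fintype.sum_equiv (Equiv.mulLeft h) _ _ fun g => ?_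
    simp only [Equiv.coe_mulLeft]
    have e1 : LinearMap.toMatrix B B (ρ (h * g)⁻¹) * LinearMap.toMatrix B B (ρ h) =
        LinearMap.toMatrix B B (ρ g⁻¹) := by
      rw [← hmul]
      congr 2
      group
    rw [Matrix.mul_assoc _ _ (LinearMap.toMatrix B B (ρ h)), e1, hmul B' h g]
    simp only [Matrix.mul_assoc]
  have hdu : IsUnit Θ.det := isUnit_iff_ne_zero.2 hA
  have hinv1 : Θ.map a * Θ⁻¹.map a = 1 := by
    have h1 : a.mapMatrix (Θ * Θ⁻¹) = 1 := by
      rw [Matrix.mul_nonsing_inv Θ hdu, map_one]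
    rw [map_mul] at h1
    exact h1
  have hinv2 : Θ⁻¹.map a * Θ.map a = 1 := by
    have h1 : a.mapMatrix (Θ⁻¹ * Θ) = 1 := by
      rw [Matrix.nonsing_inv_mul Θ hdu, map_one]
    rw [map_mul] at h1
    exact h1
  have hlin : ∀ (b c : Module.Basis (Fin n) ℂ V) (M : Matrix (Fin n) (Fin n) ℚ) (q : Fin n → ℚ),
      Matrix.toLin b c (M.map a) (∑ i, (q i : ℂ) • b i) = ∑ i, ((M.mulVec q i : ℚ) : ℂ) • c i := by
    intro b c M q
    rw [map_sum]
    have h1 : ∀ i, Matrix.toLin b c (M.map a) ((q i : ℂ) • b i) =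
        ∑ j, ((q i : ℂ) * (M j i : ℂ)) • c j := by
      intro i
      rw [map_smul, Matrix.toLin_self, Finset.smul_sum]
      refine Finset.sum_congr rfl fun j _ => ?_
      rw [smul_smul]
      rfl
    simp only [h1]
    rw [Finset.sum_comm]
    refine Finset.sum_congr rfl fun j _ => ?_
    rw [← Finset.sum_smul]
    congr 1
    simp only [Matrix.mulVec, dotProduct]
    push_cast
    exact Finset.sum_congr rfl fun i _ => mul_comm _ _
  refine ⟨Matrix.toLinOfInv B B' hinv1 hinv2, ?_, ?_⟩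
  · intro g x
    change Matrix.toLin B B' (Θ.map a) (ρ g x) = ρ g (Matrix.toLin B B' (Θ.map a) x)
    have h1 : Matrix.toLin B B' (Θ.map a) ∘ₗ ρ g = ρ g ∘ₗ Matrix.toLin B B' (Θ.map a) := by
      apply (LinearMap.toMatrix B B').injective
      rw [LinearMap.toMatrix_comp B B B', LinearMap.toMatrix_comp B B' B',
        LinearMap.toMatrix_toLin, hcomm]
    exact LinearMap.congr_fun h1 x
  · intro x
    constructor
    · rintro ⟨q, hq⟩
      refine ⟨Θ.mulVec q, ?_⟩
      change Matrix.toLin B B' (Θ.map a) x = _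
      rw [hq, hlin]
    · rintro ⟨q, hq⟩
      refine ⟨Θ⁻¹.mulVec q, ?_⟩
      rw [← hlin B' B Θ⁻¹ q, ← hq]
      exact ((Matrix.toLinOfInv B B' hinv1 hinv2).symm_apply_apply x).symm

end Pool.Agent.Q252.SI
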