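import Pool.Agent.Q20.RS.Def
import Pool.Agent.TeamU.GalAct
import Pool.Agent.Q252.SI.DnoT

/-!
# Galois action on logarithms, rational basis of `XC T`
-/

set_option autoImplicit false
set_option linter.unusedSectionVars false

namespace Pool.Agent.Q252.SI

open NumberField IsDedekindDomain Pool.Agent.Q20.RS

section
variable {F M : Type} [Field F] [Field M] [NumberField M] [Algebra F M]

theorem absNorm_pra (g : M ≃ₐ[F] M) (w : HeightOneSpectrum (𝓞 M)) :
    Ideal.absNorm (pra g w).asIdeal = Ideal.absNorm w.asIdeal := by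
  have h : (pra g w).asIdeal =
      w.asIdeal.map (RingOfIntegers.mapRingEquiv g.toRingEquiv : 𝓞 M →+* 𝓞 M) :=
    Pool.Agent.TeamU.actE_asIdeal _ _
  rw [Ideal.absNorm_apply, Ideal.absNorm_apply, Submodule.cardQuot_apply, Submodule.cardQuot_apply]
  exact (Nat.card_congr (Ideal.quotientEquiv w.asIdeal _
    (RingOfIntegers.mapRingEquiv g.toRingEquiv) h).toEquiv).symm

theorem toNN_congr {e e' : NNReal} (he : e ≠ 0) (he' : e' ≠ 0) (h : e = e')
    {v v' : WithZero (Multiplicative ℤ)} (hv : v = v') :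
    WithZeroMulInt.toNNReal he v = WithZeroMulInt.toNNReal he' v' := by
  subst h
  subst hv
  rfl

theorem abv_pra (g : M ≃ₐ[F] M) (w : HeightOneSpectrum (𝓞 M)) (x : M) :
    NumberField.HeightOneSpectrum.adicAbv M (pra g w) (g x) =
      NumberField.HeightOneSpectrum.adicAbv M w x := by
  rw [NumberField.HeightOneSpectrum.adicAbv_def, NumberField.HeightOneSpectrum.adicAbv_def]
  congr 1
  refine toNN_congr _ _ ?_ ?_
  · exact congrArg _ (absNorm_pra g w)
  · exact Pool.Agent.TeamU.val_act g w x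

theorem mult_smul' (g : M ≃ₐ[F] M) (v : InfinitePlace M) : (g • v).mult = v.mult := by
  have h := InfinitePlace.isReal_smul_iff (σ := g) (w := v)
  unfold InfinitePlace.mult
  by_cases h1 : InfinitePlace.IsReal v
  · rw [if_pos h1, if_pos (h.2 h1)]
  · rw [if_neg h1, if_neg (fun h2 => h1 (h.1 h2))]

theorem logv_pact (g : M ≃ₐ[F] M) (x : M) (w : Pl M) : logv (g x) (pact g w) = logv x w := by
  rcases w with w | v
  · change Real.log (NumberField.HeightOneSpectrum.adicAbv M (pra g w) (g x)) = Real.log _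
    rw [abv_pra]
  · change ((g • v : InfinitePlace M).mult : ℝ) * Real.log ((g • v : InfinitePlace M) (g x)) =
      (v.mult : ℝ) * Real.log (v x)
    rw [mult_smul', InfinitePlace.smul_apply]
    congr 3
    exact g.symm_apply_apply x

theorem logv_act (g : M ≃ₐ[F] M) (x : M) (w : Pl M) : logv (g x) w = logv x (pact g⁻¹ w) := by
  rw [← logv_pact g x (pact g⁻¹ w), ← pact_mul, mul_inv_cancel, pact_one]

theorem abv_act (g : M ≃ₐ[F] M) (x : M) (w : HeightOneSpectrum (𝓞 M)) :
    NumberField.HeightOneSpectrum.adicAbv M w (g x) =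
      NumberField.HeightOneSpectrum.adicAbv M (pra g⁻¹ w) x := by
  rw [← abv_pra g (pra g⁻¹ w) x, ← pra_mul, mul_inv_cancel, pra_one]

theorem xrep_fn {T : Finset (HeightOneSpectrum (𝓞 M))} (hT : Stable F T) (g : M ≃ₐ[F] M) (x : XC T)
    (w : Pl M) : (XRep hT g x).fn w = x.fn (pact g⁻¹ w) := rfl

theorem rational_act {T : Finset (HeightOneSpectrum (𝓞 M))} (hT : Stable F T) (g : M ≃ₐ[F] M)
    {x : XC T} (hx : Rational x) : Rational (XRep hT g x) := by
  intro w
  rw [xrep_fn]
  exact hx _

theorem logUnit_act {T : Finset (HeightOneSpectrum (𝓞 M))} (hT : Stable F T) (g : M ≃ₐ[F] M)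
    {x : XC T} (hx : LogUnit x) : LogUnit (XRep hT g x) := by
  obtain ⟨m, hm, u, hu, h1, h2⟩ := hx
  refine ⟨m, hm, g u, ?_, ?_, ?_⟩
  · exact (map_ne_zero_iff g g.injective).2 hu
  · intro w hw
    rw [abv_act]
    refine h1 _ fun h => hw ?_
    have h3 := hT g _ h
    rwa [← pra_mul, mul_inv_cancel, pra_one] at h3
  · intro w
    rw [xrep_fn, h2, logv_act]

theorem logv_mul {x y : M} (hx : x ≠ 0) (hy : y ≠ 0) (w : Pl M) :
    logv (x * y) w = logv x w + logv y w := by
  rcases w with w | v
  · change Real.log _ = Real.log _ + Real.log _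
    rw [map_mul, Real.log_mul]
    · exact (AbsoluteValue.ne_zero_iff _).2 hx
    · exact (AbsoluteValue.ne_zero_iff _).2 hy
  · change (v.mult : ℝ) * Real.log _ = (v.mult : ℝ) * Real.log _ + (v.mult : ℝ) * Real.log _
    rw [map_mul, Real.log_mul, mul_add]
    · exact fun h => hx ((map_eq_zero v).1 h)
    · exact fun h => hy ((map_eq_zero v).1 h)

theorem logv_one (w : Pl M) : logv (1 : M) w = 0 := by
  rcases w with w | v
  · change Real.log _ = 0
    rw [map_one, Real.log_one]
  · change (v.mult : ℝ) * Real.log _ = 0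
    rw [map_one, Real.log_one, mul_zero]

theorem logv_inv {x : M} (hx : x ≠ 0) (w : Pl M) : logv x⁻¹ w = -logv x w := by
  have h := logv_mul hx (inv_ne_zero hx) w
  rw [mul_inv_cancel₀ hx, logv_one] at h
  linarith

theorem logv_zpow {x : M} (hx : x ≠ 0) (n : ℤ) (w : Pl M) : logv (x ^ n) w = n * logv x w := by
  have hnat : ∀ k : ℕ, logv (x ^ k) w = k * logv x w := by
    intro k
    induction k with
    | zero => rw [pow_zero, logv_one, Nat.cast_zero, zero_mul]
    | succ k ih =>
      rw [pow_succ, logv_mul (pow_ne_zero k hx) hx, ih]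
      push_cast
      ring
  rcases Int.eq_nat_or_neg n with ⟨k, rfl | rfl⟩
  · rw [zpow_natCast, hnat]
    push_cast
    ring
  · rw [zpow_neg, zpow_natCast, logv_inv (pow_ne_zero k hx), hnat]
    push_cast
    ring

theorem logv_prod {ι : Type} (s : Finset ι) (f : ι → M) (hf : ∀ i, f i ≠ 0) (w : Pl M) :
    logv (∏ i ∈ s, f i) w = ∑ i ∈ s, logv (f i) w := by
  classical
  induction s using Finset.induction_on with
  | empty => rw [Finset.prod_empty, Finset.sum_empty, logv_one]
  | insert a s ha ih =>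
    rw [Finset.prod_insert ha, Finset.sum_insert ha,
      logv_mul (hf a) (Finset.prod_ne_zero_iff.2 fun i _ => hf i), ih]

end

end Pool.Agent.Q252.SI
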